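import Pool.Agent.K3h5.IB.Stm

/-!
# Iterated biased random walks: measurability of the weights (brick MEASW)
-/

set_option autoImplicit false

open MeasureTheory Filter Topology

namespace Pool.Agent.K3h40.IB

open Pool.Agent.K3h5.IB

theorem meas_nbrs {d : ℕ} {Ω : Type} [MeasurableSpace Ω] (Z : Ω → Set (V d × D d))
    (hZ : ∀ a, MeasurableSet {ω | a ∈ Z ω}) (v : V d) (E : Finset (D d)) :
    MeasurableSet {ω | nbrs (Z ω) v = E} := by
  classical
  have h : {ω | nbrs (Z ω) v = E} = ⋂ e : D d, {ω | (v, e) ∈ Z ω ↔ e ∈ E} := by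
    ext ω
    simp only [Set.mem_ofPred_eq, Set.mem_iInter]
    constructor
    · intro h e
      rw [← h]
      unfold nbrs
      simp
    · intro h
      ext e
      rw [← h e]
      unfold nbrs
      simp
  rw [h]
  refine MeasurableSet.iInter fun e => ?_
  by_cases he : e ∈ E
  · simp only [he, iff_true]
    exact hZ (v, e)
  · simp only [he, iff_false]
    exact (hZ (v, e)).compl

theorem meas_trans {d : ℕ} (p : D d → ℝ) {Ω : Type} [MeasurableSpace Ω]
    (Z : Ω → Set (V d × D d)) (hZ : ∀ a, MeasurableSet {ω | a ∈ Z ω}) (v w : V d) :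
    Measurable fun ω => trans p (Z ω) v w := by
  classical
  let F : Finset (D d) → ℝ := fun E =>
    ∑ e ∈ E, if v + vec e = w then p e / ∑ e' ∈ E, p e' else 0
  let _ : MeasurableSpace (Finset (D d)) := ⊤
  have h1 : Measurable fun ω => nbrs (Z ω) v :=
    measurable_to_countable' fun E => meas_nbrs Z hZ v E
  have h2 : Measurable F := measurable_from_top
  exact h2.comp h1

theorem meas_weight {d : ℕ} (p : D d → ℝ) (y : ℕ → V d) (n : ℕ) {Ω : Type} [MeasurableSpace Ω]
    (Z : Ω → Set (V d × D d)) (hZ : ∀ a, MeasurableSet {ω | a ∈ Z ω}) :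
    Measurable fun ω => weight p (Z ω) y n := by
  unfold weight
  by_cases h0 : y 0 = 0
  · simp only [h0, if_true]
    exact Finset.measurable_prod _ fun k _ => meas_trans p Z hZ _ _
  · simp only [h0, if_false]
    exact measurable_const

theorem meas_pt {d : ℕ} (i n : ℕ) (v : V d) :
    MeasurableSet {X : ℕ → ℕ → V d | X i n = v} := by
  have h1 : Measurable fun X : ℕ → ℕ → V d => X i n :=
    (measurable_pi_apply n).comp (measurable_pi_apply i)
  exact h1 (measurableSet_singleton v)

theorem meas_graph {d : ℕ} (i : ℕ) (a : V d × D d) :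
    MeasurableSet {X : ℕ → ℕ → V d | a ∈ graph X i} := by
  cases i with
  | zero =>
    have h : {X : ℕ → ℕ → V d | a ∈ graph X 0} = Set.univ := by
      ext X
      simp [graph]
    rw [h]
    exact MeasurableSet.univ
  | succ i =>
    have h : {X : ℕ → ℕ → V d | a ∈ graph X (i + 1)} =
        ⋃ n, (({X : ℕ → ℕ → V d | X i n = a.1} ∩ {X | X i (n + 1) = a.1 + vec a.2}) ∪
          ({X : ℕ → ℕ → V d | X i (n + 1) = a.1} ∩ {X | X i n = a.1 + vec a.2})) := by
      ext X
      simp only [Set.mem_ofPred_eq, Set.mem_iUnion, Set.mem_union, Set.mem_inter_iff]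
      exact Iff.rfl
    rw [h]
    exact MeasurableSet.iUnion fun n =>
      ((meas_pt i n _).inter (meas_pt i (n + 1) _)).union
        ((meas_pt i (n + 1) _).inter (meas_pt i n _))

theorem t_MEASW : S_MEASW := by
  intro d p y n
  refine ⟨fun i => ?_, ?_, fun Ω _ Z hZ => meas_weight p y n Z hZ⟩
  · exact meas_weight p y n (fun X : ℕ → ℕ → V d => graph X i) fun a => meas_graph i a
  · refine meas_weight p y n (fun X : ℕ → ℕ → V d => graphInf X) fun a => ?_
    have h : {X : ℕ → ℕ → V d | a ∈ graphInf X} = ⋂ i, {X : ℕ → ℕ → V d | a ∈ graph X i} := by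
      ext X
      simp only [Set.mem_ofPred_eq, Set.mem_iInter]
      unfold graphInf
      simp only [Set.mem_iInter]
    rw [h]
    exact MeasurableSet.iInter fun i => meas_graph i a

end Pool.Agent.K3h40.IB
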