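import Pool.Agent.K3h5.IB.Stm

/-!
# Iterated biased random walks: the laws are probability measures (brick PROB)
-/

set_option autoImplicit false

open MeasureTheory Filter Topology

namespace Pool.Agent.K3h40.IB

open Pool.Agent.K3h5.IB

/-- the set of the admissible directions -/
def Ep {d : ℕ} (E : Finset (D d)) : Finset (D d) := if E.Nonempty then E else Finset.univ

theorem Ep_of {d : ℕ} {E : Finset (D d)} (h : E.Nonempty) : Ep E = E := if_pos h

theorem Ep_ne {d : ℕ} [Nonempty (D d)] (E : Finset (D d)) : (Ep E).Nonempty := by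
  unfold Ep
  split_ifs with h
  · exact h
  · exact Finset.univ_nonempty

theorem pick_apply {d : ℕ} (p : D d → ℝ) (E : Finset (D d)) (e : D d) :
    pick p E {e} = if e ∈ Ep E then ENNReal.ofReal (p e / ∑ e' ∈ Ep E, p e') else 0 := by
  classical
  have h : pick p E = ∑ e ∈ Ep E, ENNReal.ofReal (p e / ∑ e' ∈ Ep E, p e') • Measure.dirac e := rfl
  rw [h, Measure.finsetSum_apply]
  simp only [Measure.smul_apply, smul_eq_mul,
    Measure.dirac_apply' _ (measurableSet_singleton e)]
  split_ifs with he
  · rw [Finset.sum_eq_single e]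
    · simp
    · intro e' _ hne
      rw [Set.indicator_of_notMem (by simpa using hne), mul_zero]
    · intro h'
      exact absurd he h'
  · refine Finset.sum_eq_zero fun e' he' => ?_
    rw [Set.indicator_of_notMem, mul_zero]
    intro h'
    rw [Set.mem_singleton_iff] at h'
    exact he (h' ▸ he')

theorem pick_prob {d : ℕ} [Nonempty (D d)] (p : D d → ℝ) (hp : ∀ e, 0 < p e)
    (E : Finset (D d)) : IsProbabilityMeasure (pick p E) := by
  classical
  constructor
  have h : pick p E = ∑ e ∈ Ep E, ENNReal.ofReal (p e / ∑ e' ∈ Ep E, p e') • Measure.dirac e := rfl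
  rw [h, Measure.finsetSum_apply]
  simp only [Measure.smul_apply, smul_eq_mul, measure_univ, mul_one]
  have hs : 0 < ∑ e' ∈ Ep E, p e' := Finset.sum_pos (fun e _ => hp e) (Ep_ne E)
  rw [← ENNReal.ofReal_sum_of_nonneg (fun e _ => (div_pos (hp e) hs).le), ← Finset.sum_div,
    div_self hs.ne', ENNReal.ofReal_one]

theorem pick_real {d : ℕ} (p : D d → ℝ) (hp : ∀ e, 0 < p e) (E : Finset (D d))
    (hE : E.Nonempty) (e : D d) :
    (pick p E).real {e} = if e ∈ E then p e / ∑ e' ∈ E, p e' else 0 := by
  have hs : 0 < ∑ e' ∈ E, p e' := Finset.sum_pos (fun e _ => hp e) hE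
  rw [Measure.real, pick_apply, Ep_of hE]
  split_ifs with he
  · rw [ENNReal.toReal_ofReal (div_pos (hp e) hs).le]
  · simp

theorem t_PROB : S_PROB := by
  intro d p q hP
  have hne : Nonempty (D d) := by
    obtain ⟨j, _⟩ := hP.drift
    exact ⟨(j, true)⟩
  have h1 : ∀ o, IsProbabilityMeasure (lam p q o) := by
    intro o
    rcases o with _ | ⟨i, m, E⟩
    · exact pick_prob (p 0) (hP.pos 0) _
    · rcases i with _ | i
      · exact pick_prob q hP.qpos E
      · exact pick_prob (p (i + 1)) (hP.pos (i + 1)) E
  have h2 : IsProbabilityMeasure (nu p q) := by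
    unfold nu
    infer_instance
  have h3 : IsProbabilityMeasure (PP p q) := by
    unfold PP
    infer_instance
  refine ⟨h1, h2, h3, ?_, ?_, ?_, ?_⟩
  · intro e
    have h := pick_real (p 0) (hP.pos 0) Finset.univ Finset.univ_nonempty e
    rw [if_pos (Finset.mem_univ e), hP.one 0, div_one] at h
    exact h
  · intro i m E hE e he
    have h := pick_real (p (i + 1)) (hP.pos (i + 1)) E hE e
    rw [if_pos he] at h
    exact h
  · intro m E hE e he
    have h := pick_real q hP.qpos E hE e
    rw [if_pos he] at h
    exact h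
  · intro i m E hE e he
    rcases i with _ | i
    · have h := pick_real q hP.qpos E hE e
      rw [if_neg he] at h
      exact h
    · have h := pick_real (p (i + 1)) (hP.pos (i + 1)) E hE e
      rw [if_neg he] at h
      exact h

end Pool.Agent.K3h40.IB
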